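import Pool.Agent.SPV.StmtsL

/-!
# Squad SPV, row LGA
-/

set_option autoImplicit false

namespace Pool.Agent.SPV.H42

open Finset Filter

lemma nr_le (p q : ℕ) [Fact p.Prime] (hq : 0 < q) (A : Finset ℕ) (β : ℕ → ZMod p) :
    nr p q A β ≤ q := by
  classical
  unfold nr
  have hsub : {z : ZMod p | z ^ q = 1 ∧ ∑ i ∈ A, β i * z ^ i = 0} ⊆
      (((Polynomial.nthRoots q (1 : ZMod p)).toFinset : Finset (ZMod p)) : Set (ZMod p)) := by
    intro z hz
    rw [Finset.mem_coe, Multiset.mem_toFinset, Polynomial.mem_nthRoots hq]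
    exact hz.1
  refine (Set.ncard_le_ncard hsub (Finset.finite_toSet _)).trans ?_
  rw [Set.ncard_coe_finset]
  exact (Multiset.toFinset_card_le _).trans (Polynomial.card_nthRoots q 1)

lemma desc_le (q r k : ℕ) (hkr : k ≤ r) (hrq : r ≤ q) :
    q.descFactorial k * (r - k) ^ k ≤ r.descFactorial k * (q - k) ^ k := by
  obtain ⟨a, rfl⟩ : ∃ a, r = k + a := ⟨r - k, by omega⟩
  obtain ⟨b, rfl⟩ : ∃ b, q = k + a + b := ⟨q - (k + a), by omega⟩
  rw [Nat.descFactorial_eq_prod_range, Nat.descFactorial_eq_prod_range]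
  have h1 : (k + a - k) ^ k = ∏ _i ∈ range k, (k + a - k) := by
    rw [Finset.prod_const, Finset.card_range]
  have h2 : (k + a + b - k) ^ k = ∏ _i ∈ range k, (k + a + b - k) := by
    rw [Finset.prod_const, Finset.card_range]
  rw [h1, h2, ← Finset.prod_mul_distrib, ← Finset.prod_mul_distrib]
  apply Finset.prod_le_prod'
  intro i hi
  rw [Finset.mem_range] at hi
  obtain ⟨m, rfl⟩ : ∃ m, k = i + m := ⟨k - i, by omega⟩
  have e1 : i + m + a + b - i = m + a + b := by omega
  have e2 : i + m + a - (i + m) = a := by omega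
  have e3 : i + m + a - i = m + a := by omega
  have e4 : i + m + a + b - (i + m) = a + b := by omega
  rw [e1, e2, e3, e4]
  nlinarith [Nat.zero_le (m * b)]

lemma choose_le (q r k : ℕ) (hkr : k ≤ r) (hrq : r ≤ q) :
    (q.choose k : ℝ) * ((r : ℝ) - k) ^ k ≤ (r.choose k : ℝ) * ((q : ℝ) - k) ^ k := by
  have h := desc_le q r k hkr hrq
  rw [Nat.descFactorial_eq_factorial_mul_choose, Nat.descFactorial_eq_factorial_mul_choose] at h
  have h2 : k.factorial * (q.choose k * (r - k) ^ k) ≤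
      k.factorial * (r.choose k * (q - k) ^ k) := by
    calc k.factorial * (q.choose k * (r - k) ^ k)
        = k.factorial * q.choose k * (r - k) ^ k := by ring
      _ ≤ _ := h
      _ = _ := by ring
  have h3 := Nat.le_of_mul_le_mul_left h2 (Nat.factorial_pos k)
  have h4 : ((q.choose k * (r - k) ^ k : ℕ) : ℝ) ≤ ((r.choose k * (q - k) ^ k : ℕ) : ℝ) := by
    exact_mod_cast h3
  rw [Nat.cast_mul, Nat.cast_mul, Nat.cast_pow, Nat.cast_pow, Nat.cast_sub hkr,
    Nat.cast_sub (hkr.trans hrq)] at h4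
  exact h4

lemma ev_props (κ : ℝ) (hκ : 0 < κ) : ∃ K : ℕ, 3 ≤ K ∧ 2 / κ ≤ (K : ℝ) ∧ ∀ k : ℕ, K ≤ k →
    2 * Real.log k ^ 2 ≤ k ∧ 2 * Real.log k ≤ k ∧
      Real.exp 1 * Real.log k < Real.exp (κ / 2 * Real.log k) := by
  have h1 : ∀ᶠ x : ℝ in atTop, ‖Real.log x ^ 2‖ ≤ 1 / 2 * ‖x‖ := by
    have h := (isLittleO_log_rpow_rpow_atTop 2 (show (0 : ℝ) < 1 by norm_num)).bound
      (show (0 : ℝ) < 1 / 2 by norm_num)
    filter_upwards [h] with x hx
    rw [Real.rpow_one] at hx
    have e : Real.log x ^ (2 : ℝ) = Real.log x ^ 2 := by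
      rw [show (2 : ℝ) = ((2 : ℕ) : ℝ) by norm_num, Real.rpow_natCast]
    rwa [e] at hx
  have h2 : ∀ᶠ x : ℝ in atTop, ‖Real.log x‖ ≤ 1 / 2 * ‖x‖ := by
    have h := (Real.isLittleO_log_id_atTop).bound (show (0 : ℝ) < 1 / 2 by norm_num)
    exact h
  have h3 : ∀ᶠ x : ℝ in atTop, ‖Real.log x‖ ≤ 1 / 4 * ‖x ^ (κ / 2)‖ :=
    (isLittleO_log_rpow_atTop (show 0 < κ / 2 by linarith)).bound
      (show (0 : ℝ) < 1 / 4 by norm_num)
  obtain ⟨X, hX⟩ := eventually_atTop.mp ((h1.and (h2.and h3)).and (eventually_ge_atTop (1 : ℝ)))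
  refine ⟨max 3 (max ⌈2 / κ⌉₊ ⌈X⌉₊), le_max_left _ _, ?_, ?_⟩
  · refine (Nat.le_ceil _).trans ?_
    exact_mod_cast (le_max_left _ _).trans (le_max_right 3 _)
  · intro k hk
    have hkX : X ≤ (k : ℝ) := by
      refine (Nat.le_ceil X).trans ?_
      exact_mod_cast ((le_max_right _ _).trans (le_max_right 3 _)).trans hk
    have hk3 : (3 : ℝ) ≤ k := by exact_mod_cast (le_max_left _ _).trans hk
    have hk0 : (0 : ℝ) < k := by linarith
    obtain ⟨⟨g1, g2, g3⟩, -⟩ := hX k hkX
    have hl1 : 1 < Real.log k := by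
      rw [Real.lt_log_iff_exp_lt hk0]
      have := Real.exp_one_lt_d9
      linarith
    rw [Real.norm_of_nonneg (by positivity), Real.norm_of_nonneg hk0.le] at g1
    rw [Real.norm_of_nonneg (by linarith), Real.norm_of_nonneg hk0.le] at g2
    rw [Real.norm_of_nonneg (by linarith), Real.norm_of_nonneg (by positivity)] at g3
    refine ⟨by linarith, by linarith, ?_⟩
    have e : Real.exp (κ / 2 * Real.log k) = (k : ℝ) ^ (κ / 2) := by
      rw [Real.rpow_def_of_pos hk0]
      ring_nf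
    rw [e]
    have he := Real.exp_one_lt_d9
    have : Real.exp 1 * Real.log k < 4 * Real.log k := by
      apply mul_lt_mul_of_pos_right _ (by linarith)
      linarith
    linarith

theorem lga (hmin : MinStmt) : LgaStmt := by
  intro κ hκ0 hκ1
  obtain ⟨K, hK3, hKκ, hK⟩ := ev_props κ hκ0
  refine ⟨K, ?_⟩
  intro q p hq hp hqp A hA hKA hKq hfac β hβ
  haveI : Fact p.Prime := ⟨hp⟩
  set k := A.card with hk
  set r := nr p q A β with hr
  have hrq : r ≤ q := nr_le p q hq.pos A β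
  obtain ⟨hl2, hl1, hle⟩ := hK k hKA
  have hk3 : 3 ≤ k := hK3.trans hKA
  have hk3R : (3 : ℝ) ≤ k := by exact_mod_cast hk3
  have hk0 : (0 : ℝ) < k := by linarith
  set L := Real.log k with hL
  have hL1 : 1 < L := by
    rw [hL, Real.lt_log_iff_exp_lt hk0]
    have := Real.exp_one_lt_d9
    linarith
  have hAne : A.Nonempty := card_pos.mp (by omega)
  have hM := hmin q hq A hA hAne {p} r hrq (by
    intro p' hp'
    rw [mem_singleton] at hp'
    subst hp'
    exact ⟨hp, hqp, β, hβ, le_refl _⟩)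
  rw [sum_singleton, ← hk] at hM
  have hfac2 : (2 : ℝ) ≤ k.factorial := by
    have h6 : 2 ≤ k.factorial := by
      calc 2 ≤ k := by omega
        _ ≤ k.factorial := Nat.self_le_factorial k
    exact_mod_cast h6
  have hlf : 0 < Real.log k.factorial := Real.log_pos (by linarith)
  have hlp : 2 * Real.log k.factorial ≤ Real.log p := by
    have h7 : Real.log ((k.factorial : ℝ) ^ 2) ≤ Real.log p := by
      apply Real.log_le_log (by positivity)
      exact_mod_cast hfac
    rw [Real.log_pow] at h7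
    exact_mod_cast h7
  have hq0 : (0 : ℝ) < q := by exact_mod_cast hq.pos
  have hrqR : (r : ℝ) ≤ q := by exact_mod_cast hrq
  -- the inequality
  have hmain : (q : ℝ) * (r.choose k) ≤ (q - r) * (q.choose k) := by
    have h8 : 0 ≤ (q : ℝ) * (r.choose k) := by positivity
    have h9 : 2 * Real.log k.factorial * (q * (r.choose k)) ≤
        Real.log k.factorial * (q * (r.choose k) + (q - r) * (q.choose k)) :=
      (mul_le_mul_of_nonneg_right hlp h8).trans hM
    have h10 : Real.log k.factorial * (q * (r.choose k)) ≤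
        Real.log k.factorial * ((q - r) * (q.choose k)) := by linarith
    exact le_of_mul_le_mul_left h10 hlf
  by_contra hcon
  push Not at hcon
  have hLk : L / k ≤ 1 / 2 := by
    rw [div_le_iff₀ hk0]
    linarith
  have hLk0 : 0 < L / k := by positivity
  have hK0 : (0 : ℝ) < K := by
    have : (3 : ℝ) ≤ K := by exact_mod_cast hK3
    linarith
  have hK3R : (3 : ℝ) ≤ K := by exact_mod_cast hK3
  have hKqR : (K : ℝ) * k ≤ q := by exact_mod_cast hKq
  -- eta
  have hη : (q : ℝ) - r < (1 - κ) * (L / k) * q := by nlinarith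
  have hrhalf : (q : ℝ) / 2 < r := by
    have h11 : (1 - κ) * (L / k) * q ≤ 1 / 2 * q := by
      apply mul_le_mul_of_nonneg_right _ hq0.le
      nlinarith
    linarith
  have hkr : (k : ℝ) < r := by nlinarith
  have hkrN : k ≤ r := by
    have : k < r := by exact_mod_cast hkr
    omega
  have hqk : 0 < (q : ℝ) - k := by linarith
  have hch := choose_le q r k hkrN hrq
  set y := ((q : ℝ) - r) / (q - k) with hy
  have hy0 : 0 ≤ y := div_nonneg (by linarith) hqk.le
  have hyx : ((r : ℝ) - k) / (q - k) = 1 - y := by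
    rw [hy]
    field_simp
    ring
  have hqchoose : (0 : ℝ) < q.choose k := by
    exact_mod_cast Nat.choose_pos (hkrN.trans hrq)
  -- (1 - y) ^ k ≤ (q - r) / q
  have hpow : (1 - y) ^ k ≤ ((q : ℝ) - r) / q := by
    rw [← hyx, div_pow, div_le_div_iff₀ (by positivity) hq0]
    have h12 : (q.choose k : ℝ) * (((r : ℝ) - k) ^ k * q) ≤
        (q.choose k : ℝ) * ((q - r) * ((q : ℝ) - k) ^ k) := by
      calc (q.choose k : ℝ) * (((r : ℝ) - k) ^ k * q)
          = (q.choose k : ℝ) * ((r : ℝ) - k) ^ k * q := by ring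
        _ ≤ (r.choose k : ℝ) * ((q : ℝ) - k) ^ k * q := mul_le_mul_of_nonneg_right hch hq0.le
        _ = (q * (r.choose k : ℝ)) * ((q : ℝ) - k) ^ k := by ring
        _ ≤ ((q - r) * (q.choose k)) * ((q : ℝ) - k) ^ k :=
            mul_le_mul_of_nonneg_right hmain (by positivity)
        _ = (q.choose k : ℝ) * ((q - r) * ((q : ℝ) - k) ^ k) := by ring
    exact le_of_mul_le_mul_left h12 hqchoose
  -- y is small
  have hyle : y ≤ (1 - κ / 2) * (L / k) := by
    rw [hy, div_le_iff₀ hqk]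
    have h13 : (k : ℝ) ≤ q / K := by
      rw [le_div_iff₀ hK0]
      linarith
    have h14 : (q : ℝ) * (1 - κ) ≤ (1 - κ / 2) * (q - k) := by
      have h15 : 1 / (K : ℝ) ≤ κ / 2 := by
        rw [div_le_iff₀ hK0]
        rw [div_le_iff₀ hκ0] at hKκ
        linarith
      have h16 : (k : ℝ) ≤ q * (κ / 2) := by
        calc (k : ℝ) ≤ q / K := h13
          _ = q * (1 / K) := by ring
          _ ≤ q * (κ / 2) := mul_le_mul_of_nonneg_left h15 hq0.le
      nlinarith
    calc (q : ℝ) - r ≤ (1 - κ) * (L / k) * q := hη.le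
      _ = (q * (1 - κ)) * (L / k) := by ring
      _ ≤ ((1 - κ / 2) * (q - k)) * (L / k) := mul_le_mul_of_nonneg_right h14 hLk0.le
      _ = _ := by ring
  have hyL : y ≤ L / k := by
    refine hyle.trans ?_
    nlinarith
  have hyhalf : y ≤ 1 / 2 := hyL.trans hLk
  have h1y : 0 < 1 - y := by linarith
  -- lower bound
  have hlog : -(y + 2 * y ^ 2) ≤ Real.log (1 - y) := by
    have h17 := Real.one_sub_inv_le_log_of_pos h1y
    refine le_trans ?_ h17
    have h18 : (1 - y)⁻¹ ≤ 1 + y + 2 * y ^ 2 := by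
      rw [inv_le_iff_one_le_mul₀ h1y]
      nlinarith [mul_nonneg (sq_nonneg y) (show (0 : ℝ) ≤ 1 - 2 * y by linarith)]
    linarith
  have hlow : Real.exp (-((1 - κ / 2) * L) - 1) ≤ (1 - y) ^ k := by
    have h19 : (1 - y) ^ k = Real.exp (k * Real.log (1 - y)) := by
      rw [Real.exp_nat_mul, Real.exp_log h1y]
    rw [h19, Real.exp_le_exp]
    have h20 : (k : ℝ) * (-(y + 2 * y ^ 2)) ≤ k * Real.log (1 - y) :=
      mul_le_mul_of_nonneg_left hlog hk0.le
    have h21 : (k : ℝ) * y ≤ (1 - κ / 2) * L := by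
      calc (k : ℝ) * y ≤ k * ((1 - κ / 2) * (L / k)) := mul_le_mul_of_nonneg_left hyle hk0.le
        _ = (1 - κ / 2) * L := by field_simp
    have h22 : (k : ℝ) * (2 * y ^ 2) ≤ 1 := by
      have h23 : y ^ 2 ≤ (L / k) ^ 2 := pow_le_pow_left₀ hy0 hyL 2
      calc (k : ℝ) * (2 * y ^ 2) ≤ k * (2 * (L / k) ^ 2) := by
            apply mul_le_mul_of_nonneg_left _ hk0.le
            linarith
        _ = 2 * L ^ 2 / k := by field_simp
        _ ≤ 1 := by
            rw [div_le_one hk0]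
            exact hl2
    linarith
  have hfin : Real.exp (-((1 - κ / 2) * L) - 1) < L / k := by
    refine lt_of_le_of_lt (hlow.trans hpow) ?_
    rw [div_lt_iff₀ hq0]
    refine lt_of_lt_of_le hη ?_
    apply mul_le_mul_of_nonneg_right _ hq0.le
    nlinarith
  rw [lt_div_iff₀ hk0] at hfin
  have hkexp : (k : ℝ) = Real.exp L := by rw [hL, Real.exp_log hk0]
  rw [hkexp, ← Real.exp_add] at hfin
  have h24 : -((1 - κ / 2) * L) - 1 + L = κ / 2 * L - 1 := by ring
  have hfin2 : Real.exp (κ / 2 * L - 1) < L := by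
    have h25 := hfin
    rw [show -((1 - κ / 2) * L) - 1 + L = κ / 2 * L - 1 by ring] at h25
    exact h25
  rw [Real.exp_sub, div_lt_iff₀ (Real.exp_pos 1)] at hfin2
  linarith

end Pool.Agent.SPV.H42
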